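import Pool.Agent.H97Z.JE.Defs

/-!
# Polynomial exhaustion: the induction step
-/

set_option autoImplicit false

open MeasureTheory Filter Finset Polynomial
open scoped BigOperators Topology ComplexConjugate InnerProductSpace

noncomputable section

namespace Pool.Agent.H285Z.JE

open Pool.Agent.H97Z.JE

/-! ### van der Corput inequality in an inner product space -/

lemma shift_le {E : Type*} [SeminormedAddCommGroup E] (u : ℕ → E) (hu : ∀ s, ‖u s‖ ≤ 1)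
    (S a : ℕ) : ‖∑ s ∈ range S, u (s + a) - ∑ s ∈ range S, u s‖ ≤ 2 * a := by
  have h1 := Finset.sum_range_add u a S
  have h2 := Finset.sum_range_add u S a
  rw [add_comm a S, h2] at h1
  have h3 : ∑ s ∈ range S, u (s + a) - ∑ s ∈ range S, u s =
      ∑ s ∈ range a, u (S + s) - ∑ s ∈ range a, u s := by
    have h4 : ∑ s ∈ range S, u (s + a) = ∑ s ∈ range S, u (a + s) :=
      sum_congr rfl fun s _ => by rw [add_comm]
    rw [h4, sub_eq_sub_iff_add_eq_add, add_comm, ← h1, add_comm]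
  have h5 : ∀ v : ℕ → E, (∀ s, ‖v s‖ ≤ 1) → ‖∑ s ∈ range a, v s‖ ≤ a := fun v hv => by
    refine (norm_sum_le _ _).trans ?_
    have := Finset.sum_le_card_nsmul (range a) (fun s => ‖v s‖) 1 fun s _ => hv s
    simpa using this
  rw [h3]
  refine (norm_sub_le _ _).trans ?_
  have h6 := h5 (fun s => u (S + s)) fun s => hu _
  have h7 := h5 u hu
  linarith

lemma card_near (H Λ a : ℕ) :
    ∑ a' ∈ range H, (if a ≤ a' + Λ ∧ a' ≤ a + Λ then (1 : ℝ) else 0) ≤ 2 * Λ + 1 := by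
  rw [← sum_filter, sum_const, nsmul_eq_mul, mul_one]
  have h1 : (range H).filter (fun a' => a ≤ a' + Λ ∧ a' ≤ a + Λ) ⊆ Icc (a - Λ) (a + Λ) := by
    intro x hx
    rw [mem_filter] at hx
    rw [mem_Icc]
    omega
  have h2 := card_le_card h1
  rw [Nat.card_Icc] at h2
  have h3 : ((range H).filter (fun a' => a ≤ a' + Λ ∧ a' ≤ a + Λ)).card ≤ 2 * Λ + 1 := by omega
  exact_mod_cast h3

lemma vdc {E : Type*} [NormedAddCommGroup E] [InnerProductSpace ℂ E] (u : ℕ → E)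
    (hu : ∀ s, ‖u s‖ ≤ 1) (S H Λ : ℕ) (η : ℝ) (hη : 0 ≤ η)
    (h : ∀ h, Λ < h → h < H → ∑ s ∈ range S, ‖⟪u s, u (s + h)⟫_ℂ‖ ≤ η * S) :
    (H : ℝ) ^ 2 * ‖∑ s ∈ range S, u s‖ ^ 2 ≤
      2 * (S * (H * (H * (η * S + 2 * H) + S * (2 * Λ + 1)))) + 8 * (H : ℝ) ^ 4 := by
  have hin : ∀ i j, ‖⟪u i, u j⟫_ℂ‖ ≤ 1 := fun i j =>
    (norm_inner_le_norm _ _).trans (mul_le_one₀ (hu i) (norm_nonneg _) (hu j))
  have hB0 : ∀ a a', a < H → a' < H → a + Λ < a' →
      ∑ s ∈ range S, ‖⟪u (s + a), u (s + a')⟫_ℂ‖ ≤ η * S + 2 * H := by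
    intro a a' ha ha' hlt
    obtain ⟨k, rfl⟩ : ∃ k, a' = a + k := ⟨a' - a, by omega⟩
    have h1 := h k (by omega) (by omega)
    have h2 := shift_le (fun s => ‖⟪u s, u (s + k)⟫_ℂ‖)
      (fun s => by rw [norm_norm]; exact hin _ _) S a
    rw [Real.norm_eq_abs, abs_le] at h2
    have h3 : ∑ s ∈ range S, ‖⟪u (s + a), u (s + (a + k))⟫_ℂ‖ =
        ∑ s ∈ range S, ‖⟪u (s + a), u (s + a + k)⟫_ℂ‖ :=
      sum_congr rfl fun s _ => by rw [add_assoc]
    have h4 : (a : ℝ) ≤ H := by exact_mod_cast ha.le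
    rw [h3]
    linarith [h2.2]
  have hB : ∀ a ∈ range H, ∀ a' ∈ range H, ∑ s ∈ range S, ‖⟪u (s + a), u (s + a')⟫_ℂ‖ ≤
      η * S + 2 * H + S * (if a ≤ a' + Λ ∧ a' ≤ a + Λ then (1 : ℝ) else 0) := by
    intro a ha a' ha'
    rw [mem_range] at ha ha'
    split_ifs with hc
    · have h1 := Finset.sum_le_card_nsmul (range S) (fun s => ‖⟪u (s + a), u (s + a')⟫_ℂ‖) 1
        fun s _ => hin _ _
      simp only [card_range, nsmul_eq_mul] at h1
      have : 0 ≤ η * S + 2 * H := by positivity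
      linarith
    · rw [mul_zero, add_zero]
      by_cases h1 : a + Λ < a'
      · exact hB0 a a' ha ha' h1
      · have h2 := hB0 a' a ha' ha (by omega)
        refine le_of_eq_of_le (sum_congr rfl fun s _ => ?_) h2
        exact norm_inner_symm _ _
  let V : ℕ → E := fun s => ∑ a ∈ range H, u (s + a)
  have hV : ∀ s, ‖V s‖ ^ 2 ≤ ∑ a ∈ range H, ∑ a' ∈ range H, ‖⟪u (s + a), u (s + a')⟫_ℂ‖ := by
    intro s
    have h1 : ‖V s‖ ^ 2 = ‖⟪V s, V s⟫_ℂ‖ := by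
      rw [inner_self_eq_norm_sq_to_K]
      simp
    rw [h1]
    simp only [V]
    rw [sum_inner]
    refine (norm_sum_le _ _).trans (sum_le_sum fun a _ => ?_)
    rw [inner_sum]
    exact norm_sum_le _ _
  have hW1 : ∑ s ∈ range S, ‖V s‖ ^ 2 ≤ H * (H * (η * S + 2 * H) + S * (2 * Λ + 1)) := by
    refine (sum_le_sum fun s _ => hV s).trans ?_
    rw [sum_comm]
    have h1 : ∀ a ∈ range H, ∑ s ∈ range S, ∑ a' ∈ range H, ‖⟪u (s + a), u (s + a')⟫_ℂ‖ ≤
        H * (η * S + 2 * H) + S * (2 * Λ + 1) := by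
      intro a ha
      rw [sum_comm]
      refine (sum_le_sum fun a' ha' => hB a ha a' ha').trans ?_
      rw [sum_add_distrib, sum_const, card_range, nsmul_eq_mul, ← mul_sum]
      have := mul_le_mul_of_nonneg_left (card_near H Λ a) (Nat.cast_nonneg (α := ℝ) S)
      linarith
    have h2 := Finset.sum_le_card_nsmul _ _ _ h1
    simpa only [card_range, nsmul_eq_mul] using h2
  have hW2 : ‖∑ s ∈ range S, V s‖ ^ 2 ≤ S * (H * (H * (η * S + 2 * H) + S * (2 * Λ + 1))) := by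
    have h1 : ‖∑ s ∈ range S, V s‖ ^ 2 ≤ (∑ s ∈ range S, ‖V s‖) ^ 2 :=
      pow_le_pow_left₀ (norm_nonneg _) (norm_sum_le _ _) 2
    have h2 := sq_sum_le_card_mul_sum_sq (s := range S) (f := fun s => ‖V s‖)
    rw [card_range] at h2
    exact h1.trans (h2.trans (mul_le_mul_of_nonneg_left hW1 (Nat.cast_nonneg _)))
  have hZ : (H : ℝ) * ‖∑ s ∈ range S, u s‖ ≤ ‖∑ s ∈ range S, V s‖ + 2 * (H : ℝ) ^ 2 := by
    have h1 : ∑ s ∈ range S, V s - H • ∑ s ∈ range S, u s =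
        ∑ a ∈ range H, (∑ s ∈ range S, u (s + a) - ∑ s ∈ range S, u s) := by
      rw [sum_sub_distrib, sum_const, card_range, sum_comm]
    have h2 : ‖∑ s ∈ range S, V s - H • ∑ s ∈ range S, u s‖ ≤ 2 * (H : ℝ) ^ 2 := by
      rw [h1]
      refine (norm_sum_le _ _).trans ?_
      have h3 := Finset.sum_le_card_nsmul (range H)
        (fun a => ‖∑ s ∈ range S, u (s + a) - ∑ s ∈ range S, u s‖) (2 * H) fun a ha => by
          have h4 : (a : ℝ) ≤ H := by exact_mod_cast (mem_range.mp ha).le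
          linarith [shift_le u hu S a]
      rw [card_range, nsmul_eq_mul] at h3
      linarith
    have h3 : ‖H • ∑ s ∈ range S, u s‖ = H * ‖∑ s ∈ range S, u s‖ := by
      rw [← Nat.cast_smul_eq_nsmul ℂ, norm_smul, Complex.norm_natCast]
    have h4 := norm_sub_norm_le (H • ∑ s ∈ range S, u s) (∑ s ∈ range S, V s)
    rw [norm_sub_rev] at h4
    linarith
  have h0 : 0 ≤ (H : ℝ) * ‖∑ s ∈ range S, u s‖ := by positivity
  have h1 := pow_le_pow_left₀ h0 hZ 2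
  rw [mul_pow] at h1
  nlinarith [sq_nonneg (‖∑ s ∈ range S, V s‖ - 2 * (H : ℝ) ^ 2)]

lemma vdc' {E : Type*} [NormedAddCommGroup E] [InnerProductSpace ℂ E] (u : ℕ → E)
    (hu : ∀ s, ‖u s‖ ≤ 1) (S H Λ : ℕ) (δ : ℝ) (hδ : 0 < δ) (hH : 16 * (2 * Λ + 1) ≤ δ ^ 2 * H)
    (hS1 : 32 * H ≤ δ ^ 2 * S) (hS2 : 8 * H ≤ δ * S) (hZ : δ * S ≤ ‖∑ s ∈ range S, u s‖) :
    ∃ h, Λ < h ∧ h < H ∧ δ ^ 2 / 8 * S ≤ ∑ s ∈ range S, ‖⟪u s, u (s + h)⟫_ℂ‖ := by
  by_contra hc
  push Not at hc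
  have h1 := vdc u hu S H Λ (δ ^ 2 / 8) (by positivity) fun h h1 h2 => (hc h h1 h2).le
  have hΛ : (0 : ℝ) ≤ Λ := Nat.cast_nonneg _
  have hH0 : (0 : ℝ) < H := by
    by_contra h2
    have h3 : (H : ℝ) = 0 := le_antisymm (not_lt.mp h2) (Nat.cast_nonneg _)
    rw [h3] at hH
    linarith
  have hS0 : (0 : ℝ) < S := by
    by_contra h2
    have h3 : (S : ℝ) = 0 := le_antisymm (not_lt.mp h2) (Nat.cast_nonneg _)
    rw [h3] at hS2
    linarith
  have h2 : (δ * S) ^ 2 ≤ ‖∑ s ∈ range S, u s‖ ^ 2 := pow_le_pow_left₀ (by positivity) hZ 2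
  have h3 := mul_le_mul_of_nonneg_left h2 (sq_nonneg (H : ℝ))
  have h4 : (8 * (H : ℝ)) ^ 2 ≤ (δ * S) ^ 2 := pow_le_pow_left₀ (by positivity) hS2 2
  have h5 := mul_le_mul_of_nonneg_left h4 (sq_nonneg (H : ℝ))
  have h6 := mul_le_mul_of_nonneg_left hS1 (show (0 : ℝ) ≤ S * H ^ 2 by positivity)
  have h7 := mul_le_mul_of_nonneg_left hH (show (0 : ℝ) ≤ S ^ 2 * H by positivity)
  have h8 : 0 < (H : ℝ) ^ 2 * (δ * S) ^ 2 := by positivity
  nlinarith

/-! ### bounded measurable functions -/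

section fns

variable {X : Type} [MeasurableSpace X]

lemma B1.mul {f g : X → ℂ} (hf : B1 f) (hg : B1 g) : B1 fun x => f x * g x :=
  ⟨hf.1.mul hg.1, fun x => by
    rw [norm_mul]; exact mul_le_one₀ (hf.2 x) (norm_nonneg _) (hg.2 x)⟩

lemma B1.cj {f : X → ℂ} (hf : B1 f) : B1 fun x => conj (f x) :=
  ⟨Complex.continuous_conj.measurable.comp hf.1, fun x => by
    rw [Complex.norm_conj]; exact hf.2 x⟩

lemma B1.cT (Y : Sys X) {f : X → ℂ} (hf : B1 f) (a : ℤ) : B1 fun x => f (Y.T a x) :=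
  ⟨hf.1.comp (Y.mp a).measurable, fun _ => hf.2 _⟩

lemma B1.lprod {α : Type} (L : List α) (F : α → X → ℂ) (h : ∀ p ∈ L, B1 (F p)) :
    B1 fun x => (L.map fun p => F p x).prod := by
  induction L with
  | nil => exact ⟨by simp, by simp⟩
  | cons p L ih =>
    simp only [List.map_cons, List.prod_cons]
    exact B1.mul (h p (List.mem_cons_self ..)) (ih fun q hq => h q (List.mem_cons_of_mem _ hq))

lemma int_T (Y : Sys X) {f : X → ℂ} (hf : B1 f) (a : ℤ) :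
    ∫ x, f (Y.T a x) ∂Y.μ = ∫ x, f x ∂Y.μ := by
  have h := integral_map (μ := Y.μ) (φ := Y.T a) (Y.mp a).measurable.aemeasurable
    (f := f) hf.1.aestronglyMeasurable
  rw [(Y.mp a).map_eq] at h
  exact h.symm

lemma memL2 (μ : Measure X) [IsProbabilityMeasure μ] {f : X → ℂ} (hf : B1 f) : MemLp f 2 μ :=
  MemLp.of_bound hf.1.aestronglyMeasurable 1 (Eventually.of_forall hf.2)

lemma inner_L2 (μ : Measure X) [IsProbabilityMeasure μ] {f g : X → ℂ} (hf : B1 f) (hg : B1 g) :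
    ⟪(memL2 μ hf).toLp f, (memL2 μ hg).toLp g⟫_ℂ = ∫ x, g x * conj (f x) ∂μ := by
  rw [L2.inner_def]
  refine integral_congr_ae ?_
  filter_upwards [(memL2 μ hf).coeFn_toLp, (memL2 μ hg).coeFn_toLp] with x h1 h2
  rw [h1, h2]
  rfl

lemma norm_L2 (μ : Measure X) [IsProbabilityMeasure μ] {f : X → ℂ} (hf : B1 f) :
    ‖(memL2 μ hf).toLp f‖ ≤ 1 := by
  have h1 : ‖⟪(memL2 μ hf).toLp f, (memL2 μ hf).toLp f⟫_ℂ‖ ≤ 1 := by
    rw [inner_L2 μ hf hf]
    have := norm_integral_le_of_norm_le_const (μ := μ) (f := fun x => f x * conj (f x)) (C := 1)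
      (Eventually.of_forall (B1.mul hf (B1.cj hf)).2)
    simpa using this
  rw [inner_self_eq_norm_sq_to_K] at h1
  simp only [norm_pow, RCLike.norm_ofReal, abs_norm] at h1
  nlinarith [norm_nonneg ((memL2 μ hf).toLp f)]

/-- van der Corput step for integrals -/
lemma vdc_int (μ : Measure X) [IsProbabilityMeasure μ] (G : X → ℂ) (Z : ℕ → X → ℂ) (hG : B1 G)
    (hZ : ∀ s, B1 (Z s)) (S H Λ : ℕ) (δ : ℝ) (hδ : 0 < δ) (hH : 16 * (2 * Λ + 1) ≤ δ ^ 2 * H)
    (hS1 : 32 * H ≤ δ ^ 2 * S) (hS2 : 8 * H ≤ δ * S)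
    (h : δ * S ≤ ∑ s ∈ range S, ‖∫ x, G x * Z s x ∂μ‖) :
    ∃ h, Λ < h ∧ h < H ∧ δ ^ 2 / 8 * S ≤ ∑ s ∈ range S, ‖∫ x, Z (s + h) x * conj (Z s x) ∂μ‖ := by
  have hw : ∀ s, ∃ w : ℂ, ‖w‖ = 1 ∧ w * ∫ x, G x * Z s x ∂μ = ‖∫ x, G x * Z s x ∂μ‖ := fun s => by
    obtain ⟨c, h1, h2⟩ := Complex.exists_norm_eq_mul_self (∫ x, G x * Z s x ∂μ)
    exact ⟨c, h1, h2.symm⟩
  choose w hw1 hw2 using hw
  let z : ℕ → Lp ℂ 2 μ := fun s => (memL2 μ (hZ s)).toLp (Z s)
  let g : Lp ℂ 2 μ := (memL2 μ (B1.cj hG)).toLp _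
  have hu : ∀ s, ‖w s • z s‖ ≤ 1 := fun s => by
    rw [norm_smul, hw1, one_mul]; exact norm_L2 μ (hZ s)
  have h1 : ⟪g, ∑ s ∈ range S, w s • z s⟫_ℂ = ((∑ s ∈ range S, ‖∫ x, G x * Z s x ∂μ‖ : ℝ) : ℂ) := by
    rw [inner_sum, Complex.ofReal_sum]
    refine sum_congr rfl fun s _ => ?_
    rw [inner_smul_right, inner_L2 μ (B1.cj hG) (hZ s), ← hw2]
    simp only [Complex.conj_conj, mul_comm]
  have h2 : δ * S ≤ ‖∑ s ∈ range S, w s • z s‖ := by
    have h3 := norm_inner_le_norm (𝕜 := ℂ) g (∑ s ∈ range S, w s • z s)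
    rw [h1, Complex.norm_real, Real.norm_eq_abs] at h3
    have h4 := mul_le_of_le_one_left (norm_nonneg (∑ s ∈ range S, w s • z s))
      (norm_L2 μ (B1.cj hG))
    exact h.trans ((le_abs_self _).trans (h3.trans h4))
  obtain ⟨k, hk1, hk2, hk3⟩ := vdc' (fun s => w s • z s) hu S H Λ δ hδ hH hS1 hS2 h2
  refine ⟨k, hk1, hk2, hk3.trans (le_of_eq (sum_congr rfl fun s _ => ?_))⟩
  rw [inner_smul_left, inner_smul_right, norm_mul, norm_mul, Complex.norm_conj, hw1, hw1, one_mul,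
    one_mul, inner_L2 μ (hZ s) (hZ (s + k))]

end fns

/-! ### polynomials -/

lemma coeff_diff (b : ℤ[X]) (h : ℤ) (k : ℕ) (hb : b.natDegree = k + 1) :
    (taylor h b - b).natDegree ≤ k ∧ (taylor h b - b).coeff k = (k + 1) * h * b.leadingCoeff := by
  constructor
  · rw [natDegree_le_iff_coeff_eq_zero]
    intro N hN
    rw [coeff_sub]
    rcases Nat.lt_or_ge (k + 1) N with h1 | h1
    · rw [coeff_eq_zero_of_natDegree_lt (by rw [natDegree_taylor]; omega),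
        coeff_eq_zero_of_natDegree_lt (by omega), sub_zero]
    · have h2 : N = b.natDegree := by omega
      rw [h2, coeff_taylor_natDegree, coeff_natDegree, sub_self]
  · have h1 : (hasseDeriv k b).natDegree < 2 := by
      have := natDegree_hasseDeriv_le b k
      omega
    rw [coeff_sub, taylor_coeff, eval_eq_sum_range' h1, sum_range_succ, sum_range_one,
      hasseDeriv_coeff, hasseDeriv_coeff, zero_add, Nat.choose_self, add_comm 1 k,
      Nat.choose_succ_self_right, leadingCoeff, hb]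
    push_cast
    ring

/-- admissible polynomial -/
def Adm (D Λ : ℕ) (v : ℤ) (r : ℤ[X]) : Prop :=
  1 ≤ r.natDegree ∧ r.natDegree ≤ D ∧ ∃ l : ℤ, l ≠ 0 ∧ |l| ≤ Λ ∧ r.leadingCoeff = v * l

lemma adm_low {D Λ H h k : ℕ} {v : ℤ} {b r : ℤ[X]} (hb : Adm D Λ v b) (hk : b.natDegree = k + 1)
    (hk1 : 1 ≤ k) (h1 : Λ < h) (h2 : h < H) (hr : r.natDegree ≤ k) (l' : ℤ) (hl' : |l'| ≤ Λ)
    (hc : r.coeff k = v * l') : Adm D (D * H * Λ + Λ) v (r + (taylor (h : ℤ) b - b)) := by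
  obtain ⟨hb1, hb2, l, hl0, hl1, hl2⟩ := hb
  obtain ⟨hd1, hd2⟩ := coeff_diff b h k hk
  have hv : v ≠ 0 := by
    rintro rfl
    rw [zero_mul, leadingCoeff_eq_zero] at hl2
    rw [hl2] at hb1
    simp at hb1
  have hl3 : 1 ≤ |l| := Int.one_le_abs hl0
  have hh : (Λ : ℤ) < h := by exact_mod_cast h1
  have hH : (h : ℤ) ≤ H := by exact_mod_cast h2.le
  have hD : (k : ℤ) + 1 ≤ D := by exact_mod_cast hk ▸ hb2
  have habs : |((k : ℤ) + 1) * h * l| = (k + 1) * h * |l| := by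
    rw [abs_mul, abs_of_nonneg (by positivity)]
  have hbig : (h : ℤ) ≤ |((k : ℤ) + 1) * h * l| := by
    rw [habs]
    have : (0 : ℤ) ≤ h := Nat.cast_nonneg _
    have h3 : (1 : ℤ) ≤ (k + 1) * |l| := by nlinarith [Nat.cast_nonneg (α := ℤ) k]
    nlinarith
  have hne : l' + (k + 1) * h * l ≠ 0 := by
    intro h3
    have h4 : ((k : ℤ) + 1) * h * l = -l' := by linarith
    rw [h4, abs_neg] at hbig
    linarith
  have hco : (r + (taylor (h : ℤ) b - b)).coeff k = v * (l' + (k + 1) * h * l) := by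
    rw [coeff_add, hc, hd2, hl2]; ring
  have hdeg : (r + (taylor (h : ℤ) b - b)).natDegree = k :=
    natDegree_eq_of_le_of_coeff_ne_zero ((natDegree_add_le _ _).trans (max_le hr hd1))
      (by rw [hco]; exact mul_ne_zero hv hne)
  refine ⟨hdeg ▸ hk1, by rw [hdeg]; omega, _, hne, ?_, by rw [leadingCoeff, hdeg, hco]⟩
  refine (abs_add_le _ _).trans ?_
  rw [habs]
  push_cast
  have h3 : ((k : ℤ) + 1) * h * |l| ≤ D * H * Λ :=
    mul_le_mul (mul_le_mul hD hH (Nat.cast_nonneg _) (Nat.cast_nonneg _)) hl1 (abs_nonneg _)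
      (by positivity)
  linarith

lemma adm_mono {D Λ Λ' : ℕ} {v : ℤ} {r : ℤ[X]} (hr : Adm D Λ v r) (h : Λ ≤ Λ') :
    Adm D Λ' v r := by
  obtain ⟨h1, h2, l, h3, h4, h5⟩ := hr
  exact ⟨h1, h2, l, h3, h4.trans (by exact_mod_cast h), h5⟩

lemma adm_taylor {D Λ : ℕ} {v : ℤ} {r : ℤ[X]} (hr : Adm D Λ v r) (h : ℤ) :
    Adm D Λ v (taylor h r) := by
  unfold Adm
  rw [natDegree_taylor, leadingCoeff_taylor]
  exact hr

lemma adm_add {D Λ H h : ℕ} {v : ℤ} {b r : ℤ[X]} (hb : Adm D Λ v b) (hb2 : 2 ≤ b.natDegree)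
    (h1 : Λ < h) (h2 : h < H) (hr : Adm D Λ v r) :
    Adm D (D * H * Λ + Λ) v (r + (taylor (h : ℤ) b - b)) := by
  obtain ⟨k, hk⟩ : ∃ k, b.natDegree = k + 1 := ⟨b.natDegree - 1, by omega⟩
  rcases lt_trichotomy r.natDegree k with h3 | h3 | h3
  · exact adm_low hb hk (by omega) h1 h2 h3.le 0 (by simp)
      (by rw [coeff_eq_zero_of_natDegree_lt h3, mul_zero])
  · obtain ⟨-, -, l, -, hl1, hl2⟩ := hr
    exact adm_low hb hk (by omega) h1 h2 h3.le l hl1 (by rw [← h3, ← hl2, leadingCoeff])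
  · have h4 : (taylor (h : ℤ) b - b).natDegree < r.natDegree :=
      lt_of_le_of_lt (coeff_diff b h k hk).1 h3
    refine adm_mono ?_ (Nat.le_add_left Λ _)
    unfold Adm
    rw [natDegree_add_eq_left_of_natDegree_lt h4,
      leadingCoeff_add_of_degree_lt' (degree_lt_degree h4)]
    exact hr

lemma adm_base {D Λ H h : ℕ} {v : ℤ} {b : ℤ[X]} (hb : Adm D Λ v b) (hb2 : 2 ≤ b.natDegree)
    (h1 : Λ < h) (h2 : h < H) : Adm D (D * H * Λ + Λ) v (taylor (h : ℤ) b - b) := by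
  obtain ⟨k, hk⟩ : ∃ k, b.natDegree = k + 1 := ⟨b.natDegree - 1, by omega⟩
  have := adm_low (r := 0) hb hk (by omega) h1 h2 (by simp) 0 (by simp) (by simp)
  rwa [zero_add] at this

/-! ### the step -/

section step

variable {X : Type} [MeasurableSpace X]

/-- the new family -/
def newL (b : ℤ[X]) (h : ℕ) (f : X → ℂ) (L : List (ℤ[X] × (X → ℂ))) : List (ℤ[X] × (X → ℂ)) :=
  (taylor (h : ℤ) b - b, fun x => conj (f x)) ::
    (L.filter fun p => 1 ≤ (p.1 - b).natDegree).flatMap fun p =>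
      [(taylor (h : ℤ) p.1, p.2), (p.1 + (taylor (h : ℤ) b - b), fun x => conj (p.2 x))]

omit [MeasurableSpace X] in
lemma newL_fst (b : ℤ[X]) (h : ℕ) (f : X → ℂ) (L : List (ℤ[X] × (X → ℂ))) :
    (newL b h f L).map Prod.fst = stepL b h (L.map Prod.fst) := by
  unfold newL stepL
  rw [List.map_cons]
  congr 1
  induction L with
  | nil => rfl
  | cons p L ih =>
    by_cases hp : 1 ≤ (p.1 - b).natDegree
    · simp only [List.map_cons, List.filter_cons, hp, decide_true, if_true, List.flatMap_cons,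
        List.map_append, ih, List.map_nil]
    · simp only [List.map_cons, List.filter_cons, hp, decide_false, Bool.false_eq_true, if_false,
        ih]

omit [MeasurableSpace X] in
lemma newL_length (b : ℤ[X]) (h : ℕ) (f : X → ℂ) (L : List (ℤ[X] × (X → ℂ))) :
    (newL b h f L).length ≤ 2 * L.length + 1 := by
  unfold newL
  rw [List.length_cons, Nat.add_le_add_iff_right]
  induction L with
  | nil => simp
  | cons p L ih =>
    by_cases hp : 1 ≤ (p.1 - b).natDegree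
    · simp only [List.filter_cons, hp, decide_true, if_true, List.flatMap_cons,
        List.length_append, List.length_cons, List.length_nil]
      omega
    · simp only [List.filter_cons, hp, decide_false, Bool.false_eq_true, if_false,
        List.length_cons]
      omega

/-- the moving part -/
def mov (Y : Sys X) (b : ℤ[X]) (f : X → ℂ) (L : List (ℤ[X] × (X → ℂ))) (s : ℕ) (x : X) : ℂ :=
  f (Y.T (-b.eval (s : ℤ)) x) * ((L.filter fun p => 1 ≤ (p.1 - b).natDegree).map fun p =>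
    p.2 (Y.T (p.1.eval (s : ℤ) - b.eval (s : ℤ)) x)).prod

/-- the fixed part -/
def fix (Y : Sys X) (b : ℤ[X]) (L : List (ℤ[X] × (X → ℂ))) (x : X) : ℂ :=
  ((L.filter fun p => ¬ 1 ≤ (p.1 - b).natDegree).map fun p =>
    p.2 (Y.T ((p.1 - b).coeff 0) x)).prod

lemma split (Y : Sys X) (b : ℤ[X]) (f : X → ℂ) (L : List (ℤ[X] × (X → ℂ))) (s : ℕ) (x : X) :
    f (Y.T (-b.eval (s : ℤ)) x) *
      (L.map fun p => p.2 (Y.T (p.1.eval (s : ℤ)) (Y.T (-b.eval (s : ℤ)) x))).prod =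
      fix Y b L x * mov Y b f L s x := by
  unfold fix mov
  rw [mul_left_comm]
  congr 1
  induction L with
  | nil => simp
  | cons p L ih =>
    rw [List.map_cons, List.prod_cons, ih, ← Y.add, ← sub_eq_add_neg]
    by_cases hp : 1 ≤ (p.1 - b).natDegree
    · simp only [List.filter_cons, hp, decide_true, if_true, not_true, decide_false,
        Bool.false_eq_true, if_false, List.map_cons, List.prod_cons]
      ring
    · have h1 : p.1.eval (s : ℤ) - b.eval (s : ℤ) = (p.1 - b).coeff 0 := by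
        rw [← eval_sub, eq_C_of_natDegree_eq_zero (show (p.1 - b).natDegree = 0 by omega), eval_C,
          coeff_C_zero]
      simp only [List.filter_cons, hp, decide_true, if_true, not_false_eq_true, decide_false,
        Bool.false_eq_true, if_false, List.map_cons, List.prod_cons, h1]
      ring

lemma recomb (Y : Sys X) (b : ℤ[X]) (h : ℕ) (f : X → ℂ) (L : List (ℤ[X] × (X → ℂ))) (s : ℕ)
    (x : X) :
    mov Y b f L (s + h) (Y.T (b.eval ((s + h : ℕ) : ℤ)) x) *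
      conj (mov Y b f L s (Y.T (b.eval ((s + h : ℕ) : ℤ)) x)) =
      f x * ((newL b h f L).map fun p => p.2 (Y.T (p.1.eval (s : ℤ)) x)).prod := by
  unfold mov newL
  simp only [← Y.add, neg_add_cancel, Y.zero, sub_add_cancel, List.map_cons, List.prod_cons,
    map_mul, eval_sub, taylor_eval, Nat.cast_add]
  rw [mul_mul_mul_comm, mul_assoc, neg_add_eq_sub]
  congr 2
  generalize (L.filter fun p => 1 ≤ (p.1 - b).natDegree) = M
  induction M with
  | nil => simp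
  | cons p M ih =>
    simp only [List.map_cons, List.prod_cons, List.flatMap_cons, List.map_append, List.prod_append,
      List.map_nil, List.prod_nil, map_mul, ← ih, eval_add, eval_sub, taylor_eval]
    rw [show p.1.eval (s : ℤ) - b.eval (s : ℤ) + b.eval ((s : ℤ) + h) =
      p.1.eval (s : ℤ) + (b.eval ((s : ℤ) + h) - b.eval (s : ℤ)) by ring]
    ring

lemma B1_mov (Y : Sys X) (b : ℤ[X]) {f : X → ℂ} {L : List (ℤ[X] × (X → ℂ))} (hf : B1 f)
    (hL : ∀ p ∈ L, B1 p.2) (s : ℕ) : B1 (mov Y b f L s) :=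
  B1.mul (B1.cT Y hf _) (B1.lprod _ (fun (p : ℤ[X] × (X → ℂ)) x =>
    p.2 (Y.T (p.1.eval (s : ℤ) - b.eval (s : ℤ)) x)) fun p hp =>
      B1.cT Y (hL p (List.mem_of_mem_filter hp)) _)

lemma B1_fix (Y : Sys X) (b : ℤ[X]) {L : List (ℤ[X] × (X → ℂ))} (hL : ∀ p ∈ L, B1 p.2) :
    B1 (fix Y b L) :=
  B1.lprod _ (fun (p : ℤ[X] × (X → ℂ)) x => p.2 (Y.T ((p.1 - b).coeff 0) x)) fun p hp =>
    B1.cT Y (hL p (List.mem_of_mem_filter hp)) _

end step

lemma ctrl_step (n D m t : ℕ) (ih : Ctrl (Cx n) D (2 * m + 1) t) : Ctrl (Cx (n + 1)) D m t := by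
  intro Λ δ hδ
  obtain ⟨H, hH⟩ := exists_nat_ge (16 * (2 * (Λ : ℝ) + 1) / δ ^ 2)
  rw [div_le_iff₀ (by positivity), mul_comm (H : ℝ)] at hH
  obtain ⟨S1, hS1⟩ := exists_nat_ge (32 * (H : ℝ) / δ ^ 2)
  obtain ⟨S2, hS2⟩ := exists_nat_ge (8 * (H : ℝ) / δ)
  rw [div_le_iff₀ (by positivity), mul_comm (S1 : ℝ)] at hS1
  rw [div_le_iff₀ hδ, mul_comm (S2 : ℝ)] at hS2
  obtain ⟨δ1, hδ1, H1, h1⟩ := ih Λ δ hδ
  obtain ⟨δ2, hδ2, H2, h2⟩ := ih (D * H * Λ + Λ) (δ ^ 2 / 8) (by positivity)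
  refine ⟨min δ1 δ2, lt_min hδ1 hδ2, max H1 H2, fun Hs hl hHs => ?_⟩
  obtain ⟨S3, h3⟩ := h1 Hs hl fun H hH => (le_max_left _ _).trans (hHs H hH)
  obtain ⟨S4, h4⟩ := h2 Hs hl fun H hH => (le_max_right _ _).trans (hHs H hH)
  refine ⟨S1 + S2 + S3 + S4 + 1, fun S hS X _ Y v f L hf hm hC hL hd => ?_⟩
  rcases hC with hC | ⟨b, hb, hb2, hC⟩
  · exact (min_le_left _ _).trans (h3 S (by omega) X Y v f L hf (by omega) hC hL hd)
  refine (min_le_right _ _).trans ?_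
  have hS0 : (0 : ℝ) < S := by exact_mod_cast (show 0 < S by omega)
  have hB : ∀ p ∈ L, B1 p.2 := fun p hp => (hL p hp).1
  have hA : ∀ p ∈ L, Adm D Λ v p.1 := fun p hp => (hL p hp).2
  have hbA : Adm D Λ v b := by
    obtain ⟨p, hp, rfl⟩ := List.mem_map.mp hb
    exact hA p hp
  have hI : ∀ s : ℕ, ∫ x, f x * (L.map fun p => p.2 (Y.T (p.1.eval (s : ℤ)) x)).prod ∂Y.μ =
      ∫ x, fix Y b L x * mov Y b f L s x ∂Y.μ := fun s => by
    rw [← int_T Y (B1.mul hf (B1.lprod L (fun p x => p.2 (Y.T (p.1.eval (s : ℤ)) x))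
      fun p hp => B1.cT Y (hB p hp) _)) (-b.eval (s : ℤ))]
    simp only [split]
  rw [expect_eq_sum_div_card, card_range, le_div_iff₀ hS0] at hd
  simp only [hI] at hd
  have hS1' : (S1 : ℝ) ≤ S := by exact_mod_cast (show S1 ≤ S by omega)
  have hS2' : (S2 : ℝ) ≤ S := by exact_mod_cast (show S2 ≤ S by omega)
  obtain ⟨h, hh1, hh2, hh3⟩ := vdc_int Y.μ _ _ (B1_fix Y b hB) (B1_mov Y b hf hB) S H Λ δ hδ hH
    (hS1.trans (mul_le_mul_of_nonneg_left hS1' (by positivity)))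
    (hS2.trans (mul_le_mul_of_nonneg_left hS2' hδ.le)) hd
  refine h4 S (by omega) X Y v f (newL b h f L) hf ((newL_length b h f L).trans (by omega))
    (by rw [newL_fst]; exact hC h) ?_ ?_
  · intro p hp
    rcases List.mem_cons.mp hp with rfl | hp
    · exact ⟨B1.cj hf, adm_base hbA hb2 hh1 hh2⟩
    · obtain ⟨q, hq, hp⟩ := List.mem_flatMap.mp hp
      have hq' := List.mem_of_mem_filter hq
      rcases List.mem_cons.mp hp with rfl | hp
      · exact ⟨hB q hq', adm_mono (adm_taylor (hA q hq') _) (Nat.le_add_left _ _)⟩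
      · rw [List.mem_singleton] at hp
        subst hp
        exact ⟨B1.cj (hB q hq'), adm_add hbA hb2 hh1 hh2 (hA q hq')⟩
  · rw [expect_eq_sum_div_card, card_range, le_div_iff₀ hS0]
    refine hh3.trans (le_of_eq (sum_congr rfl fun s _ => ?_))
    rw [← int_T Y (B1.mul (B1_mov Y b hf hB (s + h)) (B1.cj (B1_mov Y b hf hB s)))
      (b.eval ((s + h : ℕ) : ℤ))]
    simp only [recomb]

theorem thm_pet (hc : S_cx) (hl : S_lin) : S_pet := by
  have key : ∀ n D m, ∃ t, Ctrl (Cx n) D m t := by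
    intro n
    induction n with
    | zero => exact fun D m => ⟨m + 1, hl D m⟩
    | succ n ih =>
      intro D m
      obtain ⟨t, ht⟩ := ih D (2 * m + 1)
      exact ⟨t, ctrl_step n D m t ht⟩
  intro D m
  obtain ⟨n, hn⟩ := hc D m
  obtain ⟨t, ht⟩ := key n D m
  refine ⟨t, fun Λ δ hδ => ?_⟩
  obtain ⟨δ', hδ', H0, h⟩ := ht Λ δ hδ
  refine ⟨δ', hδ', H0, fun Hs h1 h2 => ?_⟩
  obtain ⟨S0, h⟩ := h Hs h1 h2
  refine ⟨S0, fun S hS X _ Y v f L hf hm _ hL hd => ?_⟩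
  refine h S hS X Y v f L hf hm (hn _ (by rwa [List.length_map]) fun r hr => ?_) hL hd
  obtain ⟨p, hp, rfl⟩ := List.mem_map.mp hr
  exact (hL p hp).2.2.1

end Pool.Agent.H285Z.JE
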